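import Pool.Agent.Helper22.SL.Defs

/-!
# T5, block SL, S10: targets of hits with the same families 0 agree
-/

set_option autoImplicit false

namespace Pool.Agent.Helper64.SL

open Finset Pool.Agent.Helper27.T4 Pool.Agent.Helper29.T4 Pool.Agent.Helper22.HW
  Pool.Agent.Helper22.SL

variable {κ : Type*} {Mk : κ → ℕ} {P : Pr κ} {I : ℕ} {X Ir : ℕ → ℕ}

theorem L_succ (P : Pr κ) (r : ℕ) : P.L (r + 1) = P.L r * P.Q r := by
  rw [Pr.L, Pr.L, Finset.prod_range_succ, mul_assoc]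

theorem posL (hP : P.Ok Mk) (r : ℕ) : 0 < P.L r := by
  unfold Pr.L
  refine Nat.mul_pos hP.posL (Finset.prod_pos fun t _ => ?_)
  unfold Pr.Q NN
  exact Finset.prod_pos fun i _ => pow_pos (hP.prime t i).pos _

theorem M'_dvd_F (hP : P.Ok Mk) {r : ℕ} (hr : r ≤ P.h) : P.M' ∣ P.F r :=
  hP.M'M.trans (hP.MF r hr)

/-- the targets of a hit -/
theorem hit_TT (hP : P.Ok Mk) (hT : Tg P I X Ir) {w : κ → ℕ} {B B' : Finset ℕ}
    {x : Dt × (ℕ × ℕ)} (hx : Hit P w I X B B' x) {r : ℕ} (hr : r ≤ P.h) :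
    P.M' * P.L r ∣ TT X x.1 r ∧ TT X x.1 r ≤ X x.1.1 ∧
      X x.1.1 < TT X x.1 r + 4 * (P.F r * P.L r) ∧ P.F 0 * P.L 0 ≤ P.F r * P.L r := by
  induction r with
  | zero =>
    refine ⟨?_, le_refl _, ?_, le_refl _⟩
    · have h := hT.dvd _ hx.lab
      have h0 : P.L 0 = P.L0 := by simp [Pr.L]
      rw [h0]
      exact h
    · have h1 := hP.posF
      have h2 := posL hP 0
      have h3 : 0 < P.F 0 * P.L 0 := Nat.mul_pos h1 h2
      show X x.1.1 < X x.1.1 + _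
      omega
  | succ r ih =>
    obtain ⟨h1, h2, h3, h4⟩ := ih (by omega)
    have hl := hx.lev r (by omega)
    have hle := hl.le
    have hlt := hl.lt
    have hlt' := hl.lt'
    have hF : P.F' (r + 1) * P.L (r + 1) ≤ P.F (r + 1) * P.L (r + 1) := by
      rcases Nat.eq_zero_or_pos (P.F (r + 1)) with h0 | h0
      · rw [h0, zero_mul] at hlt
        omega
      · exact Nat.mul_le_mul_right _ (Nat.le_of_dvd h0 (hP.F'F (r + 1) hr))
    have hs := hP.size r (by omega)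
    refine ⟨hl.tdvd, ?_, ?_, ?_⟩
    · show TT X x.1 r - _ ≤ _
      omega
    · show X x.1.1 < TT X x.1 r - _ + _
      omega
    · omega

/-- **S10.** -/
theorem TT_const (hP : P.Ok Mk) (hT : Tg P I X Ir) {w : κ → ℕ} {B B' : Finset ℕ}
    {x y : Dt × (ℕ × ℕ)} (hx : Hit P w I X B B' x) (hy : Hit P w I X B B' y) {r : ℕ}
    (hr : r < P.h) (h0 : (x.1.2 r).1.1 0 = (y.1.2 r).1.1 0)
    (h0' : (x.1.2 r).1.2 0 = (y.1.2 r).1.2 0) : TT X x.1 r = TT X y.1 r := by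
  obtain ⟨a1, a2, a3, a4⟩ := hit_TT hP hT hx hr.le
  obtain ⟨b1, b2, b3, b4⟩ := hit_TT hP hT hy hr.le
  have hlx := hx.lev r hr
  have hly := hy.lev r hr
  have hsok := hP.sok r hr
  have hsok' := hP.sok' r hr
  have hLL : P.L 0 = P.L0 := by simp [Pr.L]
  -- the keys of the family 0
  have hk : P.key r 0 (x.1.2 r).1.1 = P.key r 0 (y.1.2 r).1.1 :=
    hsok.dep 0 _ _ fun j hj => absurd hj (by simp [rk3])
  have hk' : P.key' r 0 (x.1.2 r).1.2 = P.key' r 0 (y.1.2 r).1.2 :=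
    hsok'.dep 0 _ _ fun j hj => absurd hj (by simp [rk3])
  have c1 := hlx.cmp 0 (mem_univ _)
  have c2 := hly.cmp 0 (mem_univ _)
  have c1' := hlx.cmp' 0 (mem_univ _)
  have c2' := hly.cmp' 0 (mem_univ _)
  rw [h0, hk, ← c2] at c1
  rw [h0', hk', ← c2'] at c1'
  have e1 : (x.1.2 r).2.1 ≡ (y.1.2 r).2.1 [MOD P.q r 0] := (ZMod.natCast_eq_natCast_iff _ _ _).1 c1
  have e1' : (x.1.2 r).2.2 ≡ (y.1.2 r).2.2 [MOD P.q r 0] :=
    (ZMod.natCast_eq_natCast_iff _ _ _).1 c1'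
  -- the next targets are divisible by `q r 0`
  have hqQ : P.q r 0 ∣ P.L (r + 1) := by
    rw [L_succ]
    refine Dvd.dvd.mul_left ?_ _
    exact Finset.dvd_prod_of_mem (fun i => P.p r i ^ P.z r i) (mem_univ 0)
  have d1 : P.q r 0 ∣ TT X x.1 r - ((x.1.2 r).2.1 + (x.1.2 r).2.2) :=
    (hqQ.trans (Dvd.intro_left _ rfl)).trans hlx.tdvd
  have d2 : P.q r 0 ∣ TT X y.1 r - ((y.1.2 r).2.1 + (y.1.2 r).2.2) :=
    (hqQ.trans (Dvd.intro_left _ rfl)).trans hly.tdvd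
  have f1 : TT X x.1 r ≡ (x.1.2 r).2.1 + (x.1.2 r).2.2 [MOD P.q r 0] := by
    have := (Nat.modEq_iff_dvd' hlx.le).2 d1
    exact this.symm
  have f2 : TT X y.1 r ≡ (y.1.2 r).2.1 + (y.1.2 r).2.2 [MOD P.q r 0] := by
    have := (Nat.modEq_iff_dvd' hly.le).2 d2
    exact this.symm
  have f3 : TT X x.1 r ≡ TT X y.1 r [MOD P.q r 0] := f1.trans ((e1.add e1').trans f2.symm)
  have f4 : TT X x.1 r ≡ TT X y.1 r [MOD P.M' * P.L r] :=
    ((Nat.modEq_zero_iff_dvd.2 a1).trans (Nat.modEq_zero_iff_dvd.2 b1).symm)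
  have hcop : (P.M' * P.L r).Coprime (P.q r 0) := by
    have h1 : (P.F (r + 1) * P.L r).Coprime (P.p r 0) := hsok.cop 0
    have h2 : P.M' * P.L r ∣ P.F (r + 1) * P.L r := Nat.mul_dvd_mul_right (M'_dvd_F hP hr) _
    exact (Nat.Coprime.of_dvd_left h2 h1).pow_right _
  have f5 : TT X x.1 r ≡ TT X y.1 r [MOD P.M' * P.L r * P.q r 0] :=
    (Nat.modEq_and_modEq_iff_modEq_mul hcop).1 ⟨f4, f3⟩
  -- the difference is small
  have hz := hP.zF r hr
  have hLr := posL hP r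
  have g1 : 6 * (P.F r * P.L r) < P.M' * P.L r * P.q r 0 := by
    have := Nat.mul_lt_mul_of_pos_right hz hLr
    calc 6 * (P.F r * P.L r) = 6 * P.F r * P.L r := by ring
      _ < P.M' * P.q r 0 * P.L r := this
      _ = P.M' * P.L r * P.q r 0 := by ring
  have g2 := hT.win _ hx.lab _ hy.lab
  have g3 := hT.win _ hy.lab _ hx.lab
  rw [← hLL] at g2 g3
  rcases le_total (TT X x.1 r) (TT X y.1 r) with h | h
  · have h1 := (Nat.modEq_iff_dvd' h).1 f5
    have h2 := Nat.eq_zero_of_dvd_of_lt h1 (by omega)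
    omega
  · have h1 := (Nat.modEq_iff_dvd' h).1 f5.symm
    have h2 := Nat.eq_zero_of_dvd_of_lt h1 (by omega)
    omega

end Pool.Agent.Helper64.SL
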