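import Pool.Agent.Helper22.SL.Defs
import Pool.Agent.Helper33.SL.S1
import Pool.Agent.Helper99.SL.Cnt
import Pool.Agent.Helper2.SL.Count

/-!
# T5, block SL, S8: the number of data and windows
-/

set_option autoImplicit false

namespace Pool.Agent.Helper64.SL

open Finset Pool.Agent.Helper27.T4 Pool.Agent.Helper29.T4 Pool.Agent.Helper22.HW
  Pool.Agent.Helper22.SL

variable {κ : Type*} [DecidableEq κ] {Mk : κ → ℕ} {P : Pr κ} {I : ℕ} {X Ir : ℕ → ℕ}

open Classical in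
omit [DecidableEq κ] in
/-- S8 from the counts for a given label and target. -/
theorem countL_of (w : κ → ℕ) (B B' : Finset ℕ)
    (S1 : ∀ d ∈ CC P w I X P.h, d.1 < I ∧ TT X d P.h ∈ AP P X P.h d.1)
    (S4 : ∀ i t : ℕ, (((CC P w I X P.h).filter (fun d => d.1 = i ∧ TT X d P.h = t)).card : ℝ) ≤
      P.A P.h * P.pc P.h * P.W P.h) :
    (((CC P w I X P.h ×ˢ (B ×ˢ B')).filter (fun q =>
      P.M * P.L P.h * q.2.1 + P.M' * P.L P.h * q.2.2 = TT X q.1 P.h)).card : ℝ) ≤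
      PP P I X B B' * P.A P.h * P.pc P.h * P.W P.h := by
  set S := (CC P w I X P.h ×ˢ (B ×ˢ B')).filter (fun q =>
      P.M * P.L P.h * q.2.1 + P.M' * P.L P.h * q.2.2 = TT X q.1 P.h) with hS
  set T := (range I ×ˢ (B ×ˢ B')).filter
    (fun q => P.M * P.L P.h * q.2.1 + P.M' * P.L P.h * q.2.2 ∈ AP P X P.h q.1) with hT
  have hmap : ∀ q ∈ S, (q.1.1, q.2) ∈ T := by
    intro q hq
    rw [hS, mem_filter, mem_product] at hq
    obtain ⟨⟨h1, h2⟩, h3⟩ := hq
    obtain ⟨h4, h5⟩ := S1 q.1 h1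
    rw [hT, mem_filter, mem_product]
    refine ⟨⟨mem_range.2 h4, h2⟩, ?_⟩
    show P.M * P.L P.h * q.2.1 + P.M' * P.L P.h * q.2.2 ∈ AP P X P.h q.1.1
    rw [h3]
    exact h5
  have h1 : S.card = ∑ p ∈ T, (S.filter (fun q => (q.1.1, q.2) = p)).card :=
    card_eq_sum_card_fiberwise hmap
  have h2 : ∀ p ∈ T, (((S.filter (fun q => (q.1.1, q.2) = p)).card : ℕ) : ℝ) ≤
      P.A P.h * P.pc P.h * P.W P.h := by
    intro p _
    refine le_trans ?_ (S4 p.1 (P.M * P.L P.h * p.2.1 + P.M' * P.L P.h * p.2.2))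
    rw [Nat.cast_le]
    refine card_le_card_of_injOn (fun q => q.1) ?_ ?_
    · intro q hq
      rw [mem_coe, mem_filter, hS, mem_filter, mem_product] at hq
      obtain ⟨⟨⟨a1, -⟩, a3⟩, a4⟩ := hq
      rw [mem_coe, mem_filter]
      subst a4
      exact ⟨a1, rfl, a3.symm⟩
    · intro q hq q' hq' he
      rw [mem_coe, mem_filter] at hq hq'
      refine Prod.ext he ?_
      have e1 : q.2 = p.2 := congrArg Prod.snd hq.2
      have e2 : q'.2 = p.2 := congrArg Prod.snd hq'.2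
      rw [e1, e2]
  have h3 : PP P I X B B' = T.card := rfl
  rw [h1, Nat.cast_sum, h3]
  calc (∑ p ∈ T, (((S.filter (fun q => (q.1.1, q.2) = p)).card : ℕ) : ℝ))
      ≤ ∑ _p ∈ T, P.A P.h * P.pc P.h * P.W P.h := sum_le_sum h2
    _ = T.card * P.A P.h * P.pc P.h * P.W P.h := by
        rw [sum_const, nsmul_eq_mul]
        ring

open Classical in
/-- **S8.** -/
theorem countL (hP : P.Ok Mk) (hT : Tg P I X Ir) (w : κ → ℕ) (B B' : Finset ℕ) :
    (((CC P w I X P.h ×ˢ (B ×ˢ B')).filter (fun q =>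
      P.M * P.L P.h * q.2.1 + P.M' * P.L P.h * q.2.2 = TT X q.1 P.h)).card : ℝ) ≤
      PP P I X B B' * P.A P.h * P.pc P.h * P.W P.h :=
  countL_of w B B' (fun _ hd => Pool.Agent.Helper33.SL.CC_inv hP hT w le_rfl hd)
    (Pool.Agent.Helper99.SL.cnt_of w
      (fun _ hr _ hd => Pool.Agent.Helper33.SL.CC_inv hP hT w hr hd)
      (fun _ hr i => Pool.Agent.Helper33.SL.card_AP hP hr i)
      (fun _ hr t t' => Pool.Agent.Helper2.SL.lv_count hP hr w t t') P.h le_rfl)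

end Pool.Agent.Helper64.SL
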